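import Pool.Agent.W787.KG.Defs

set_option autoImplicit false

open MeasureTheory Set Metric Filter Topology Real
open scoped ContDiff

noncomputable section

namespace Pool.Agent.W400.KG

open Pool.Agent.W787.KG

theorem ratio_le (ξ η : E) : |inner ℝ ξ η / ‖η‖ ^ 2| ≤ ‖ξ‖ * (1 / ‖η‖) := by
  by_cases h : ‖η‖ = 0
  · rw [h]; simp
  · have hp : 0 < ‖η‖ := lt_of_le_of_ne (norm_nonneg _) (Ne.symm h)
    rw [abs_div, abs_of_pos (pow_pos hp 2), div_le_iff₀ (pow_pos hp 2)]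
    have h1 := abs_real_inner_le_norm ξ η
    have h2 : ‖ξ‖ * (1 / ‖η‖) * ‖η‖ ^ 2 = ‖ξ‖ * ‖η‖ := by
      field_simp
    rw [h2]; exact h1

theorem Wg_le_one (h4 : S_WE) (p : ℕ) (ξ : E) : Wg p 1 1 ξ ≤ 1 := by
  have h := h4.2.2.2.1 p 0 ξ (Nat.zero_le _)
  refine h.trans ?_
  unfold Wg
  simp

theorem Wg_pos (h4 : S_WE) (p : ℕ) (ξ : E) : 0 < Wg p 1 1 ξ := (h4.1 p 1 1 ξ one_pos one_pos).1

theorem weaken (h4 : S_WE) (p k : ℕ) (hk : k ≤ p) (a a' : ℝ) (g : E → ℝ) (haa : a ≤ a')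
    (ha : 0 ≤ a') (hg : ∀ ξ, |g ξ| ≤ a * Wg p 1 1 ξ) (ξ : E) : |g ξ| ≤ a' * Wg k 1 1 ξ :=
  (hg ξ).trans (mul_le_mul haa (h4.2.2.2.1 p k ξ hk) (Wg_pos h4 p ξ).le ha)

/-- Bound of the bilinear term with a loss of one. -/
theorem nb (h1 : S_NB) (h4 : S_WE) (p : ℕ) (hp : 2 ≤ p) : ∃ C : ℝ, 0 < C ∧
    ∀ (a b : ℝ) (f h : E → ℝ), 0 ≤ a → 0 ≤ b → Continuous f → Continuous h →
    (∀ ξ, |f ξ| ≤ a * Wg p 1 1 ξ) → (∀ ξ, |h ξ| ≤ b * Wg p 1 1 ξ) → ∀ ξ : E,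
    Integrable (fun η : E => inner ℝ ξ η / ‖η‖ ^ 2 * f (ξ - η) * h η) ∧
    |NN f h ξ| ≤ C * a * b * Wg (p - 1) 1 1 ξ := by
  obtain ⟨C, hC, h⟩ := h1 p hp
  refine ⟨C, hC, fun a b f g ha hb hf hg hfa hgb ξ => ?_⟩
  obtain ⟨e1, e2⟩ := h 1 1 a b f g one_pos one_pos ha hb hf hg hfa hgb ξ
  refine ⟨e1, e2.trans ?_⟩
  have hw := h4.2.2.1 p 1 ξ (by omega)
  rw [pow_one] at hw
  calc C / (1 * 1) * a * b * ‖ξ‖ * Wg p 1 1 ξ = C * a * b * (‖ξ‖ * Wg p 1 1 ξ) := by ring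
    _ ≤ C * a * b * Wg (p - 1) 1 1 ξ := mul_le_mul_of_nonneg_left hw (by positivity)

theorem sq_bound (h4 : S_WE) (p : ℕ) (hp : 2 ≤ p) (a : ℝ) (ha : 0 ≤ a) (g : E → ℝ)
    (hg : ∀ ξ, |g ξ| ≤ a * Wg p 1 1 ξ) (ξ : E) :
    |-‖ξ‖ ^ 2 * g ξ| ≤ a * Wg (p - 2) 1 1 ξ := by
  have hw := h4.2.2.1 p 2 ξ hp
  rw [abs_mul, abs_neg, abs_of_nonneg (by positivity : (0 : ℝ) ≤ ‖ξ‖ ^ 2)]
  calc ‖ξ‖ ^ 2 * |g ξ| ≤ ‖ξ‖ ^ 2 * (a * Wg p 1 1 ξ) :=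
        mul_le_mul_of_nonneg_left (hg ξ) (by positivity)
    _ = a * (‖ξ‖ ^ 2 * Wg p 1 1 ξ) := by ring
    _ ≤ a * Wg (p - 2) 1 1 ξ := mul_le_mul_of_nonneg_left hw ha

theorem cont_sq (g : ℝ → E → ℝ) (hg : Continuous (fun z : ℝ × E => g z.1 z.2)) :
    Continuous (fun z : ℝ × E => -‖z.2‖ ^ 2 * g z.1 z.2) :=
  ((continuous_snd.norm.pow 2).neg).mul hg

/-- First derivative in time. -/
theorem hd1 (f N : ℝ → E → ℝ) (hNc : Continuous (fun z : ℝ × E => N z.1 z.2))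
    (hIE : ∀ (t : ℝ) (ξ : E), 0 ≤ t → f t ξ = Real.exp (-t * ‖ξ‖ ^ 2) * f 0 ξ
      + ∫ s in (0 : ℝ)..t, Real.exp (-(t - s) * ‖ξ‖ ^ 2) * N s ξ)
    (t : ℝ) (ξ : E) (ht : 0 < t) :
    HasDerivAt (fun s => f s ξ) (-‖ξ‖ ^ 2 * f t ξ + N t ξ) t := by
  have hNξ : Continuous (fun r : ℝ => Real.exp (r * ‖ξ‖ ^ 2) * N r ξ) := by
    refine Continuous.mul (by fun_prop) ?_
    exact hNc.comp (continuous_id.prodMk continuous_const)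
  have hrep : ∀ s : ℝ, 0 ≤ s → f s ξ = Real.exp (-s * ‖ξ‖ ^ 2) *
      (f 0 ξ + ∫ r in (0 : ℝ)..s, Real.exp (r * ‖ξ‖ ^ 2) * N r ξ) := by
    intro s hs
    rw [hIE s ξ hs, mul_add, ← intervalIntegral.integral_const_mul]
    congr 1
    refine intervalIntegral.integral_congr fun r _ => ?_
    rw [← mul_assoc, ← Real.exp_add]
    congr 2
    ring
  have e1 : HasDerivAt (fun s : ℝ => Real.exp (-s * ‖ξ‖ ^ 2))
      (Real.exp (-t * ‖ξ‖ ^ 2) * (-1 * ‖ξ‖ ^ 2)) t :=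
    (((hasDerivAt_id t).neg).mul_const (‖ξ‖ ^ 2)).exp
  have e2 : HasDerivAt (fun s : ℝ => f 0 ξ + ∫ r in (0 : ℝ)..s,
      Real.exp (r * ‖ξ‖ ^ 2) * N r ξ)
      (Real.exp (t * ‖ξ‖ ^ 2) * N t ξ) t :=
    (intervalIntegral.integral_hasDerivAt_right (hNξ.intervalIntegrable _ _)
      (hNξ.stronglyMeasurableAtFilter _ _) hNξ.continuousAt).const_add _
  have hF := e1.mul e2
  have e3 : Real.exp (-t * ‖ξ‖ ^ 2) * Real.exp (t * ‖ξ‖ ^ 2) = 1 := by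
    rw [← Real.exp_add]
    rw [show -t * ‖ξ‖ ^ 2 + t * ‖ξ‖ ^ 2 = 0 by ring, Real.exp_zero]
  have hval : Real.exp (-t * ‖ξ‖ ^ 2) * (-1 * ‖ξ‖ ^ 2) *
        (f 0 ξ + ∫ r in (0 : ℝ)..t, Real.exp (r * ‖ξ‖ ^ 2) * N r ξ) +
        Real.exp (-t * ‖ξ‖ ^ 2) * (Real.exp (t * ‖ξ‖ ^ 2) * N t ξ) =
        -‖ξ‖ ^ 2 * f t ξ + N t ξ := by
    rw [← mul_assoc (Real.exp (-t * ‖ξ‖ ^ 2)) (Real.exp (t * ‖ξ‖ ^ 2)), e3, one_mul, hrep t ht.le]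
    ring
  rw [← hval]
  refine hF.congr_of_eventuallyEq ?_
  filter_upwards [Ioi_mem_nhds ht] with s hs
  exact hrep s (le_of_lt hs)

/-- Derivative of the bilinear term. -/
theorem hd2 (h2 : S_WI) (h4 : S_WE) (f b : ℝ → E → ℝ) (K Kb : ℝ) (hK0 : 0 ≤ K) (hKb0 : 0 ≤ Kb)
    (hft : ∀ t, Continuous (f t)) (hbt : ∀ t, Continuous (b t))
    (hK : ∀ t ξ, |f t ξ| ≤ K * Wg 4 1 1 ξ) (hbb : ∀ t ξ, |b t ξ| ≤ Kb * Wg 4 1 1 ξ)
    (hd : ∀ t ξ, 0 < t → HasDerivAt (fun s => f s ξ) (b t ξ) t) (t : ℝ) (ξ : E) (ht : 0 < t)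
    (hi0 : Integrable (fun η : E => inner ℝ ξ η / ‖η‖ ^ 2 * f t (ξ - η) * f t η))
    (hi1 : Integrable (fun η : E => inner ℝ ξ η / ‖η‖ ^ 2 * b t (ξ - η) * f t η))
    (hi2 : Integrable (fun η : E => inner ℝ ξ η / ‖η‖ ^ 2 * f t (ξ - η) * b t η)) :
    HasDerivAt (fun s => NN (f s) (f s) ξ) (NN (b t) (f t) ξ + NN (f t) (b t) ξ) t := by
  have hmr : Measurable (fun η : E => inner ℝ ξ η / ‖η‖ ^ 2) := by
    refine Measurable.div ?_ ?_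
    · exact (continuous_const.inner continuous_id).measurable
    · exact (continuous_norm.pow 2).measurable
  have hsub : Continuous (fun η : E => ξ - η) := continuous_const.sub continuous_id
  have hm : ∀ g h : E → ℝ, Continuous g → Continuous h →
      Measurable (fun η : E => inner ℝ ξ η / ‖η‖ ^ 2 * g (ξ - η) * h η) := fun g h hg hh =>
    (hmr.mul (hg.comp hsub).measurable).mul hh.measurable
  have hone : ∀ η : E, Wg 4 1 1 η ≤ 1 := Wg_le_one h4 4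
  have hbd : ∀ (g h : E → ℝ) (a c : ℝ), 0 ≤ a → 0 ≤ c → (∀ η, |g η| ≤ a * Wg 4 1 1 η) →
      (∀ η, |h η| ≤ c * Wg 4 1 1 η) → ∀ η,
      |inner ℝ ξ η / ‖η‖ ^ 2 * g (ξ - η) * h η| ≤ ‖ξ‖ * (1 / ‖η‖) * a * (c * Wg 4 1 1 η) := by
    intro g h a c ha hc hg hh η
    have hr := ratio_le ξ η
    have hr0 : 0 ≤ ‖ξ‖ * (1 / ‖η‖) := by positivity
    have hb1 : |g (ξ - η)| ≤ a := (hg _).trans (by
      have := mul_le_mul_of_nonneg_left (hone (ξ - η)) ha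
      linarith)
    rw [abs_mul, abs_mul]
    exact mul_le_mul (mul_le_mul hr hb1 (abs_nonneg _) hr0) (hh η) (abs_nonneg _)
      (mul_nonneg hr0 ha)
  have hkey := hasDerivAt_integral_of_dominated_loc_of_deriv_le
    (μ := (volume : Measure E)) (x₀ := t) (s := Ioi (0 : ℝ))
    (F := fun s η => inner ℝ ξ η / ‖η‖ ^ 2 * f s (ξ - η) * f s η)
    (F' := fun s η => inner ℝ ξ η / ‖η‖ ^ 2 * b s (ξ - η) * f s η +
      inner ℝ ξ η / ‖η‖ ^ 2 * f s (ξ - η) * b s η)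
    (bound := fun η => 2 * (‖ξ‖ * Kb * K) * (1 / ‖η‖ * Wg 4 1 1 η))
    (Ioi_mem_nhds ht)
    (Filter.Eventually.of_forall fun s => (hm _ _ (hft s) (hft s)).aestronglyMeasurable)
    hi0
    ((hm _ _ (hbt t) (hft t)).add (hm _ _ (hft t) (hbt t))).aestronglyMeasurable
    (Filter.Eventually.of_forall fun η s _ => by
      rw [Real.norm_eq_abs]
      refine (abs_add_le _ _).trans ((add_le_add
        (hbd (b s) (f s) Kb K hKb0 hK0 (hbb s) (hK s) η)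
        (hbd (f s) (b s) K Kb hK0 hKb0 (hK s) (hbb s) η)).trans (le_of_eq ?_))
      ring)
    (((h2 4 (by norm_num)).2).const_mul _)
    (Filter.Eventually.of_forall fun η s hs =>
      ((hd s (ξ - η) hs).const_mul (inner ℝ ξ η / ‖η‖ ^ 2)).mul (hd s η hs))
  have e : (∫ η, (inner ℝ ξ η / ‖η‖ ^ 2 * b t (ξ - η) * f t η +
    inner ℝ ξ η / ‖η‖ ^ 2 * f t (ξ - η) * b t η)) = NN (b t) (f t) ξ + NN (f t) (b t) ξ :=
    integral_add hi1 hi2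
  rw [← e]
  exact hkey.2

/-- The first derivative. -/
def bF (f : ℝ → E → ℝ) (t : ℝ) (ξ : E) : ℝ := -‖ξ‖ ^ 2 * f t ξ + NN (f t) (f t) ξ

/-- The second derivative. -/
def cF (f b : ℝ → E → ℝ) (t : ℝ) (ξ : E) : ℝ :=
  -‖ξ‖ ^ 2 * b t ξ + (NN (b t) (f t) ξ + NN (f t) (b t) ξ)

theorem td (h1 : S_NB) (h2 : S_WI) (h3 : S_NC) (h4 : S_WE) : S_TD := by
  intro f K hf hK hIE
  have hpos := Wg_pos h4
  have hK0 : 0 ≤ K := by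
    have h := (abs_nonneg _).trans (hK 0 0)
    by_contra hc
    push Not at hc
    have := mul_neg_of_neg_of_pos hc (hpos 6 0)
    linarith
  have hft : ∀ t, Continuous (f t) := fun t => hf.comp (Continuous.prodMk_right t)
  obtain ⟨C6, hC6, hN6⟩ := nb h1 h4 6 (by norm_num)
  obtain ⟨C4, hC4, hN4⟩ := nb h1 h4 4 (by norm_num)
  have hK2 : ∀ t ξ, |f t ξ| ≤ K * Wg 2 1 1 ξ := fun t =>
    weaken h4 6 2 (by norm_num) K K (f t) le_rfl hK0 (hK t)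
  have hK4 : ∀ t ξ, |f t ξ| ≤ K * Wg 4 1 1 ξ := fun t =>
    weaken h4 6 4 (by norm_num) K K (f t) le_rfl hK0 (hK t)
  have hNc : Continuous (fun z : ℝ × E => NN (f z.1) (f z.1) z.2) := h3 f f K hf hf hK2 hK2
  have hNff := fun t => hN6 K K (f t) (f t) hK0 hK0 (hft t) (hft t) (hK t) (hK t)
  have hNb4 : ∀ t ξ, |NN (f t) (f t) ξ| ≤ C6 * K * K * Wg 4 1 1 ξ := fun t =>
    weaken h4 5 4 (by norm_num) _ _ (NN (f t) (f t)) le_rfl (by positivity)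
      (fun ξ => (hNff t ξ).2)
  -- b
  obtain ⟨b, hbdef⟩ : ∃ b : ℝ → E → ℝ, ∀ t ξ, b t ξ = -‖ξ‖ ^ 2 * f t ξ + NN (f t) (f t) ξ :=
    ⟨bF f, fun t ξ => rfl⟩
  have hb : Continuous (fun z : ℝ × E => b z.1 z.2) := by
    simp only [hbdef]
    exact (cont_sq f hf).add hNc
  have hbt : ∀ t, Continuous (b t) := fun t => hb.comp (Continuous.prodMk_right t)
  obtain ⟨Kb, hKb0, hKKb, hCK, hbb⟩ : ∃ Kb : ℝ, 0 ≤ Kb ∧ K ≤ Kb ∧ C6 * K * K ≤ Kb ∧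
      ∀ t ξ, |b t ξ| ≤ Kb * Wg 4 1 1 ξ := by
    have hp : 0 ≤ C6 * K * K := by positivity
    refine ⟨K + C6 * K * K, by linarith, by linarith, by linarith, fun t ξ => ?_⟩
    rw [hbdef, add_mul]
    exact (abs_add_le _ _).trans (add_le_add (sq_bound h4 6 (by norm_num) K hK0 (f t) (hK t) ξ)
      (hNb4 t ξ))
  have hf2 : ∀ t ξ, |f t ξ| ≤ Kb * Wg 2 1 1 ξ := fun t =>
    weaken h4 6 2 (by norm_num) K Kb (f t) hKKb hKb0 (hK t)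
  have hb2 : ∀ t ξ, |b t ξ| ≤ Kb * Wg 2 1 1 ξ := fun t =>
    weaken h4 4 2 (by norm_num) Kb Kb (b t) le_rfl hKb0 (hbb t)
  have hc1 : Continuous (fun z : ℝ × E => NN (b z.1) (f z.1) z.2) := h3 b f Kb hb hf hb2 hf2
  have hc2 : Continuous (fun z : ℝ × E => NN (f z.1) (b z.1) z.2) := h3 f b Kb hf hb hf2 hb2
  have hn1 := fun t => hN4 Kb K (b t) (f t) hKb0 hK0 (hbt t) (hft t) (hbb t) (hK4 t)
  have hn2 := fun t => hN4 K Kb (f t) (b t) hK0 hKb0 (hft t) (hbt t) (hK4 t) (hbb t)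
  have hn1b : ∀ t ξ, |NN (b t) (f t) ξ| ≤ C4 * Kb * K * Wg 2 1 1 ξ := fun t =>
    weaken h4 3 2 (by norm_num) _ _ (NN (b t) (f t)) le_rfl (by positivity)
      (fun ξ => (hn1 t ξ).2)
  have hn2b : ∀ t ξ, |NN (f t) (b t) ξ| ≤ C4 * K * Kb * Wg 2 1 1 ξ := fun t =>
    weaken h4 3 2 (by norm_num) _ _ (NN (f t) (b t)) le_rfl (by positivity)
      (fun ξ => (hn2 t ξ).2)
  obtain ⟨c, hcdef⟩ : ∃ c : ℝ → E → ℝ, ∀ t ξ, c t ξ =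
      -‖ξ‖ ^ 2 * b t ξ + (NN (b t) (f t) ξ + NN (f t) (b t) ξ) := ⟨cF f b, fun t ξ => rfl⟩
  have hc : Continuous (fun z : ℝ × E => c z.1 z.2) := by
    simp only [hcdef]
    exact (cont_sq b hb).add (hc1.add hc2)
  have hcb : ∀ t ξ, |c t ξ| ≤ (Kb + (C4 * Kb * K + C4 * K * Kb)) * Wg 2 1 1 ξ := by
    intro t ξ
    rw [hcdef, add_mul, add_mul]
    exact (abs_add_le _ _).trans (add_le_add (sq_bound h4 4 (by norm_num) Kb hKb0 (b t)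
      (hbb t) ξ) ((abs_add_le _ _).trans (add_le_add (hn1b t ξ) (hn2b t ξ))))
  -- derivatives
  have hd1' : ∀ t ξ, 0 < t → HasDerivAt (fun s => f s ξ) (b t ξ) t := by
    intro t ξ ht
    rw [hbdef]
    exact hd1 f (fun t => NN (f t) (f t)) hNc hIE t ξ ht
  have hd2' : ∀ t ξ, 0 < t → HasDerivAt (fun s => NN (f s) (f s) ξ)
      (NN (b t) (f t) ξ + NN (f t) (b t) ξ) t := fun t ξ ht =>
    hd2 h2 h4 f b K Kb hK0 hKb0 hft hbt hK4 hbb hd1' t ξ ht (hNff t ξ).1 (hn1 t ξ).1 (hn2 t ξ).1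
  have hKp : 0 ≤ C4 * Kb * K + C4 * K * Kb := by positivity
  refine ⟨b, c, Kb + (C4 * Kb * K + C4 * K * Kb), hbdef, hb, hc, fun t => ?_, hcb,
    fun t => ?_, fun t ξ ht => ⟨hd1' t ξ ht, ?_⟩⟩
  · exact weaken h4 4 4 le_rfl Kb _ (b t) (by linarith) (by linarith) (hbb t)
  · exact weaken h4 4 4 le_rfl _ _ (NN (f t) (f t)) (by linarith) (by linarith) (hNb4 t)
  · have h := ((hd1' t ξ ht).const_mul (-‖ξ‖ ^ 2)).add (hd2' t ξ ht)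
    rw [hcdef]
    have e : (fun s => b s ξ) = fun s => -‖ξ‖ ^ 2 * f s ξ + NN (f s) (f s) ξ :=
      funext fun s => hbdef s ξ
    rw [e]
    exact h

end Pool.Agent.W400.KG

end
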